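import Pool.Agent.H98.CP.St
import Pool.Agent.H75.MT.Asym

set_option autoImplicit false
set_option linter.unusedSectionVars false

/-! The order of the best approximation from the core statement. -/

namespace Pool.Agent.H96.CP

open Finset ComplexConjugate MeasureTheory UnitAddTorus H75.MT

open scoped ENNReal

noncomputable section

local instance : MeasureSpace UnitAddCircle := ⟨AddCircle.haarAddCircle⟩

local instance : Measure.IsAddHaarMeasure (volume : Measure UnitAddCircle) :=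
  inferInstanceAs (Measure.IsAddHaarMeasure AddCircle.haarAddCircle)

local instance : IsProbabilityMeasure (volume : Measure UnitAddCircle) :=
  inferInstanceAs (IsProbabilityMeasure AddCircle.haarAddCircle)

/-- a sign sequence outside a small set and with small moments -/
lemma exists_good' (r : ℝ) (hr : 0 < r) (K n : ℕ) (hn : 1 ≤ n)
    (Bad : Finset (Fin n → Finset (YK K))) (hBad : 4 * #Bad ≤ (2 ^ Fintype.card (YK K)) ^ n)
    (m : ℕ) :
    ∃ ε : Fin n → Finset (YK K), ε ∉ Bad ∧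
      ∫ x : T2, |(TT K n (pa r K (ext ε)) x).re| ^ m
        ≤ 2 * (4 * m.factorial * (Real.sqrt ((n : ℝ) * (4 ^ r) ^ 2)) ^ m) := by
  classical
  set C : ℝ := 4 * m.factorial * (Real.sqrt ((n : ℝ) * (4 ^ r) ^ 2)) ^ m with hC
  have hn0 : (0 : ℝ) < n := by exact_mod_cast hn
  have hCpos : 0 < C := by positivity
  have hint : ∀ ε : Fin n → Finset (YK K),
      Integrable (fun x : T2 => |(TT K n (pa r K (ext ε)) x).re| ^ m) := by
    intro ε
    exact rint _ (by fun_prop)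
  have hsum : ∑ ε : Fin n → Finset (YK K), ∫ x : T2, |(TT K n (pa r K (ext ε)) x).re| ^ m
      ≤ (2 ^ Fintype.card (YK K)) ^ n * C := by
    rw [← integral_finsetSum _ (fun ε _ => hint ε)]
    have h1 : ∫ x : T2, ∑ ε : Fin n → Finset (YK K), |(TT K n (pa r K (ext ε)) x).re| ^ m
        ≤ ∫ _x : T2, (2 ^ Fintype.card (YK K)) ^ n * C := by
      refine integral_mono (integrable_finsetSum _ (fun ε _ => hint ε)) (integrable_const _)
        (fun x => ?_)
      exact phi_moment r hr K n hn x m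
    refine h1.trans (le_of_eq ?_)
    simp
  by_contra hcon
  push Not at hcon
  have h2 : ∀ ε ∈ (univ : Finset (Fin n → Finset (YK K))) \ Bad,
      2 * C ≤ ∫ x : T2, |(TT K n (pa r K (ext ε)) x).re| ^ m := by
    intro ε hε
    rw [mem_sdiff] at hε
    exact (hcon ε hε.2).le
  have h3 := Finset.sum_le_sum h2
  rw [Finset.sum_const, nsmul_eq_mul] at h3
  have h4 : ∑ ε ∈ (univ : Finset (Fin n → Finset (YK K))) \ Bad,
      ∫ x : T2, |(TT K n (pa r K (ext ε)) x).re| ^ m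
      ≤ ∑ ε : Fin n → Finset (YK K), ∫ x : T2, |(TT K n (pa r K (ext ε)) x).re| ^ m :=
    Finset.sum_le_sum_of_subset_of_nonneg (Finset.subset_univ _)
      (fun ε _ _ => integral_nonneg (fun x => by positivity))
  have h5 := h3.trans (h4.trans hsum)
  have hTot : #(univ : Finset (Fin n → Finset (YK K))) = (2 ^ Fintype.card (YK K)) ^ n := by
    rw [Finset.card_univ, Fintype.card_fun, Fintype.card_finset, Fintype.card_fin (n := n)]
  have h6 : #((univ : Finset (Fin n → Finset (YK K))) \ Bad)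
      = (2 ^ Fintype.card (YK K)) ^ n - #Bad := by
    rw [Finset.card_sdiff_of_subset (Finset.subset_univ _), hTot]
  set T := (2 ^ Fintype.card (YK K)) ^ n with hT
  have hTpos : 0 < T := by positivity
  have h8 : (#((univ : Finset (Fin n → Finset (YK K))) \ Bad) : ℝ) = (T : ℝ) - #Bad := by
    rw [h6, Nat.cast_sub (by omega)]
  rw [h8] at h5
  have h9 : (4 : ℝ) * #Bad ≤ T := by exact_mod_cast hBad
  have h10 : (0 : ℝ) < T := by exact_mod_cast hTpos
  have h11 : ((2 ^ Fintype.card (YK K) : ℝ)) ^ n = (T : ℝ) := by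
    rw [hT]
    push_cast
    rfl
  rw [h11] at h5
  nlinarith [mul_pos h10 hCpos]

/-- the extremal function for given parameters -/
theorem construct' (c : ℝ) (K : ℕ) (hcore : ∀ B : Finset (Fin (K + 1) → Finset (YK K)),
      (∀ ε ∈ B, ∃ (Lf : Finset (Fin 2 → ℤ)) (d : (Fin 2 → ℤ) → ℂ),
        (#Lf : ℝ) ≤ c * K * 8 ^ K ∧ ∀ x, ‖(TT K (K + 1) (aa K (ext ε)) - tp Lf d) x‖ ≤ c * K) →
      4 * #B ≤ 2 ^ (8 ^ (K + 2) * (K + 1)))
    (r : ℝ) (hr : 0 < r) (m : ℕ) (hm : 1 ≤ m) :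
    ∃ F P : C(T2, ℂ), (∀ x, (F x).im = 0) ∧ (∀ x, (P x).im = 0) ∧
      (∀ l, co F l = (∏ i, cr r (l i)) * co P l) ∧
      eLpNorm (fun x : T2 => (P x).re) (m : ℝ≥0∞) volume ≤ 1 ∧
      ∀ (L : Finset (Fin 2 → ℤ)) (d : (Fin 2 → ℤ) → ℂ) (U : ℝ), (#L : ℝ) ≤ c * K * 8 ^ K →
        (∀ x, ‖F x - ∑ k ∈ L, d k * mFourier k x‖ ≤ U) →
        (8 ^ (K + 2) : ℝ) ^ (-r) / DD r m (K + 1) * (c * K) ≤ U := by
  classical
  set B : Finset (Fin (K + 1) → Finset (YK K)) := univ.filter (fun ε =>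
    ∃ (Lf : Finset (Fin 2 → ℤ)) (d : (Fin 2 → ℤ) → ℂ), (#Lf : ℝ) ≤ c * K * 8 ^ K ∧
      ∀ x, ‖(TT K (K + 1) (aa K (ext ε)) - tp Lf d) x‖ ≤ c * K) with hBdef
  have hB : 4 * #B ≤ (2 ^ Fintype.card (YK K)) ^ (K + 1) := by
    rw [Fintype.card_fin, ← pow_mul]
    exact hcore B fun ε hε => (mem_filter.1 hε).2
  obtain ⟨ε, hε, hint⟩ := exists_good' r hr K (K + 1) (by omega) B hB m
  have hn1 : 1 ≤ K + 1 := by omega
  have hnorm := norm_le_one r K (K + 1) m hn1 hm (pa r K (ext ε)) hint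
  clear hint
  have hD := DD_pos r m (K + 1) hn1
  set D := DD r m (K + 1) with hDdef
  set α : ℝ := (8 ^ (K + 2) : ℝ) ^ (-r) / D with hα
  have hαpos : 0 < α := by positivity
  refine ⟨(α : ℂ) • TT K (K + 1) (aa K (ext ε)), ((1 / D : ℝ) : ℂ) • TT K (K + 1) (pa r K (ext ε)),
    ?_, ?_, ?_, ?_, ?_⟩
  · intro x
    rw [ContinuousMap.smul_apply, smul_eq_mul, Complex.im_ofReal_mul, TT_real, mul_zero]
  · intro x
    rw [ContinuousMap.smul_apply, smul_eq_mul, Complex.im_ofReal_mul, TT_real, mul_zero]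
  · intro l
    rw [co_smul, co_smul]
    have h1 := member r K (K + 1) (ext ε) l
    have h2 : (α : ℂ) = ((1 / D : ℝ) : ℂ) * (((8 ^ (K + 2) : ℝ) ^ (-r) : ℝ) : ℂ) := by
      rw [← Complex.ofReal_mul]
      congr 1
      rw [hα]
      ring
    rw [h2, mul_assoc, h1]
    ring
  · have h1 : (fun x : T2 => ((((1 / D : ℝ) : ℂ) • TT K (K + 1) (pa r K (ext ε))) x).re)
        = fun x : T2 => (TT K (K + 1) (pa r K (ext ε)) x).re / D := by
      funext x
      rw [ContinuousMap.smul_apply, smul_eq_mul, Complex.re_ofReal_mul]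
      ring
    rw [h1]
    exact hnorm
  · intro L d U hL hU
    have h1 : ∀ x, ‖(TT K (K + 1) (aa K (ext ε)) - tp L (fun k => (α : ℂ)⁻¹ * d k)) x‖
        ≤ U / α := by
      intro x
      rw [le_div_iff₀ hαpos]
      have h2 := hU x
      have h3 : ((α : ℂ) • TT K (K + 1) (aa K (ext ε))) x - ∑ k ∈ L, d k * mFourier k x
          = (α : ℂ) * (TT K (K + 1) (aa K (ext ε)) - tp L (fun k => (α : ℂ)⁻¹ * d k)) x := by
        have hα' : (α : ℂ) ≠ 0 := by exact_mod_cast hαpos.ne'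
        rw [ContinuousMap.smul_apply, smul_eq_mul, ContinuousMap.sub_apply, tp_apply, mul_sub,
          Finset.mul_sum]
        congr 1
        refine Finset.sum_congr rfl (fun k _ => ?_)
        field_simp
      rw [h3, norm_mul, Complex.norm_real, Real.norm_eq_abs, abs_of_pos hαpos] at h2
      rw [mul_comm]
      exact h2
    by_contra hcon
    push Not at hcon
    apply hε
    rw [hBdef, mem_filter]
    refine ⟨mem_univ _, L, fun k => (α : ℂ)⁻¹ * d k, hL, fun x => (h1 x).trans ?_⟩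
    rw [div_le_iff₀ hαpos]
    linarith

/-- choice of the number of the blocks -/
lemma params' (c : ℝ) (hc : 0 < c) (K1 : ℕ) : ∃ m0 : ℕ, ∀ m : ℕ, m0 ≤ m →
    ∃ K : ℕ, K1 ≤ K ∧ 2 ≤ K ∧ (m : ℝ) ≤ c * K * 8 ^ K ∧ c * K * 8 ^ K ≤ 16 * m := by
  classical
  set K2 := max K1 2 with hK2
  obtain ⟨m0, hm0⟩ := exists_nat_gt (c * K2 * 8 ^ K2)
  refine ⟨m0, fun m hm => ?_⟩
  have hm' : c * K2 * 8 ^ K2 < m := lt_of_lt_of_le hm0 (by exact_mod_cast hm)
  have hex : ∃ K : ℕ, (m : ℝ) ≤ c * K * 8 ^ K := by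
    obtain ⟨K, hK⟩ := exists_nat_ge ((m : ℝ) / c)
    refine ⟨K, ?_⟩
    rw [div_le_iff₀ hc] at hK
    have h1 : (1 : ℝ) ≤ 8 ^ K := one_le_pow₀ (by norm_num)
    have h2 : (0 : ℝ) ≤ c * K := by positivity
    nlinarith
  obtain ⟨K, hKspec, hKmin⟩ : ∃ K : ℕ, (m : ℝ) ≤ c * K * 8 ^ K
      ∧ ∀ k < K, ¬ (m : ℝ) ≤ c * k * 8 ^ k :=
    ⟨Nat.find hex, Nat.find_spec hex, fun k hk => Nat.find_min hex hk⟩
  have hKK : K2 < K := by
    by_contra hcon
    push Not at hcon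
    have h1 : c * K * 8 ^ K ≤ c * K2 * 8 ^ K2 := by
      have h2 : (K : ℝ) ≤ K2 := by exact_mod_cast hcon
      have h3 : (8 : ℝ) ^ K ≤ 8 ^ K2 := pow_le_pow_right₀ (by norm_num) hcon
      gcongr
    linarith
  have h22 : 2 ≤ K2 := le_max_right _ _
  have h11 : K1 ≤ K2 := le_max_left _ _
  refine ⟨K, by omega, by omega, hKspec, ?_⟩
  have h1 := hKmin (K - 1) (by omega)
  push Not at h1
  have e1 : K - 1 + 1 = K := by omega
  have e2 : (8 : ℝ) ^ K = 8 ^ (K - 1) * 8 := by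
    rw [← pow_succ, e1]
  have e3 : (K : ℝ) ≤ 2 * ((K - 1 : ℕ) : ℝ) := by
    have : K ≤ 2 * (K - 1) := by omega
    exact_mod_cast this
  rw [e2]
  have h2 : c * K * (8 ^ (K - 1) * 8) ≤ c * (2 * ((K - 1 : ℕ) : ℝ)) * (8 ^ (K - 1) * 8) := by
    gcongr
  have h3 : c * (2 * ((K - 1 : ℕ) : ℝ)) * (8 ^ (K - 1) * 8) =
      16 * (c * ((K - 1 : ℕ) : ℝ) * 8 ^ (K - 1)) := by ring
  linarith

/-- comparison of the two sides -/
lemma compare' (c : ℝ) (hc : 0 < c) (r : ℝ) (hr : 0 < r) (mp m K : ℕ) (hK : 2 ≤ K)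
    (hKc : c ≤ K) (h3 : (m : ℝ) ≤ c * K * 8 ^ K) (h4 : c * K * 8 ^ K ≤ 16 * m) :
    ((64 : ℝ) ^ (-r) * c / (16 * mp.factorial * 4 ^ r) / ((c / 16) ^ (-r) * 5 ^ (r + 1 / 2)))
      * (m : ℝ) ^ (-r) * (Real.log m) ^ (r + 1 / 2)
    ≤ (8 ^ (K + 2) : ℝ) ^ (-r) / DD r mp (K + 1) * (c * K) := by
  have hK' : (2 : ℝ) ≤ K := by exact_mod_cast hK
  set k : ℝ := (K : ℝ) with hk
  have hk0 : 0 < k := by linarith
  have hP : (0 : ℝ) < 8 ^ K := by positivity
  have hm0 : (0 : ℝ) < m := by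
    have : 0 < c * k * 8 ^ K := by positivity
    linarith
  have hm1 : (1 : ℝ) ≤ m := by
    have : 0 < m := by exact_mod_cast hm0
    exact_mod_cast this
  have hl2b := Real.log_two_lt_d9
  have hlog8 : Real.log ((8 : ℝ) ^ K) = k * (3 * Real.log 2) := by
    rw [Real.log_pow, show (8 : ℝ) = 2 ^ 3 by norm_num, Real.log_pow]
    norm_num
    rfl
  have hlogk : Real.log k ≤ k := (Real.log_le_sub_one_of_pos hk0).trans (by linarith)
  -- upper bound for the logarithm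
  have hlogm : Real.log m ≤ 5 * k := by
    have h5 : (m : ℝ) ≤ k * k * 8 ^ K := h3.trans (by gcongr)
    have h6 := Real.log_le_log hm0 h5
    rw [Real.log_mul (by positivity) hP.ne', Real.log_mul hk0.ne' hk0.ne', hlog8] at h6
    nlinarith
  have hlogm0 : 0 ≤ Real.log m := Real.log_nonneg hm1
  have hmr : (m : ℝ) ^ (-r) ≤ (8 ^ K : ℝ) ^ (-r) * k ^ (-r) * (c / 16) ^ (-r) := by
    have h5 : (8 : ℝ) ^ K * k * (c / 16) ≤ m := by linarith
    have h6 := Real.rpow_le_rpow_of_nonpos (z := -r)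
      (show 0 < (8 : ℝ) ^ K * k * (c / 16) by positivity) h5 (by linarith)
    refine h6.trans (le_of_eq ?_)
    rw [Real.mul_rpow (by positivity) (by positivity), Real.mul_rpow hP.le hk0.le]
  have hlr : (Real.log m) ^ (r + 1 / 2) ≤ 5 ^ (r + 1 / 2) * (k ^ r * Real.sqrt k) := by
    have h5 := Real.rpow_le_rpow hlogm0 hlogm (show 0 ≤ r + 1 / 2 by linarith)
    refine h5.trans (le_of_eq ?_)
    rw [Real.mul_rpow (by norm_num) hk0.le, Real.rpow_add hk0 r (1 / 2), Real.sqrt_eq_rpow]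
  set A : ℝ := (c / 16) ^ (-r) * 5 ^ (r + 1 / 2) with hA
  have hA0 : 0 < A := by positivity
  have hprod : (m : ℝ) ^ (-r) * (Real.log m) ^ (r + 1 / 2)
      ≤ (8 ^ K : ℝ) ^ (-r) * Real.sqrt k * A := by
    have h5 : (m : ℝ) ^ (-r) * (Real.log m) ^ (r + 1 / 2)
        ≤ ((8 ^ K : ℝ) ^ (-r) * k ^ (-r) * (c / 16) ^ (-r)) *
          (5 ^ (r + 1 / 2) * (k ^ r * Real.sqrt k)) :=
      mul_le_mul hmr hlr (by positivity) (by positivity)
    refine h5.trans (le_of_eq ?_)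
    have h6 : k ^ (-r) * k ^ r = 1 := by
      rw [← Real.rpow_add hk0]
      simp
    rw [hA]
    linear_combination ((8 ^ K : ℝ) ^ (-r) * (c / 16) ^ (-r) * 5 ^ (r + 1 / 2) *
      Real.sqrt k) * h6
  -- the other side
  have hsn : 0 < Real.sqrt (k + 1) := Real.sqrt_pos.2 (by positivity)
  have hsq : Real.sqrt k * Real.sqrt (k + 1) ≤ 2 * k := by
    rw [← Real.sqrt_mul hk0.le, Real.sqrt_le_left (by positivity)]
    nlinarith
  have hkey : Real.sqrt k / 2 ≤ k / Real.sqrt (k + 1) := by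
    rw [div_le_div_iff₀ (by norm_num) hsn]
    linarith
  have hfac : (0 : ℝ) < mp.factorial := by exact_mod_cast Nat.factorial_pos mp
  have hP2 : 0 < (8 ^ K : ℝ) ^ (-r) := Real.rpow_pos_of_pos hP _
  have h64 : (0 : ℝ) < 64 ^ (-r) := Real.rpow_pos_of_pos (by norm_num) _
  have h4r : (0 : ℝ) < 4 ^ r := Real.rpow_pos_of_pos (by norm_num) _
  have hRHS : (8 ^ (K + 2) : ℝ) ^ (-r) / DD r mp (K + 1) * (c * k)
      = (8 ^ K : ℝ) ^ (-r) * 64 ^ (-r) * c / (8 * mp.factorial * 4 ^ r)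
        * (k / Real.sqrt (k + 1)) := by
    unfold DD
    have h5 : (8 ^ (K + 2) : ℝ) = 8 ^ K * 64 := by
      rw [pow_add]
      norm_num
    have h6 : (((K + 1 : ℕ)) : ℝ) = k + 1 := by push_cast; rfl
    rw [h5, Real.mul_rpow hP.le (by norm_num), h6]
    field_simp
  rw [hRHS]
  have step1 : ((64 : ℝ) ^ (-r) * c / (16 * mp.factorial * 4 ^ r) / A)
      * (m : ℝ) ^ (-r) * (Real.log m) ^ (r + 1 / 2)
      ≤ ((64 : ℝ) ^ (-r) * c / (16 * mp.factorial * 4 ^ r) / A)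
        * ((8 ^ K : ℝ) ^ (-r) * Real.sqrt k * A) := by
    rw [mul_assoc]
    exact mul_le_mul_of_nonneg_left hprod (by positivity)
  refine step1.trans ?_
  have step2 : ((64 : ℝ) ^ (-r) * c / (16 * mp.factorial * 4 ^ r) / A)
        * ((8 ^ K : ℝ) ^ (-r) * Real.sqrt k * A)
      = (8 ^ K : ℝ) ^ (-r) * 64 ^ (-r) * c / (8 * mp.factorial * 4 ^ r) * (Real.sqrt k / 2) := by
    field_simp
    ring
  rw [step2]
  exact mul_le_mul_of_nonneg_left hkey (by positivity)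

/-- **The lower bound in dimension two for `p ≥ 2`.** -/
theorem two (h : H98.CP.StCore) (r : ℝ) (hr : 0 < r) (mp : ℕ) (hmp : 1 ≤ mp) :
    ∃ c : ℝ, 0 < c ∧ ∀ᶠ m : ℕ in Filter.atTop, ∃ F P : C(T2, ℂ), (∀ x, (F x).im = 0) ∧
      (∀ x, (P x).im = 0) ∧ (∀ l, co F l = (∏ i, cr r (l i)) * co P l) ∧
      eLpNorm (fun x : T2 => (P x).re) (mp : ℝ≥0∞) volume ≤ 1 ∧
      ∀ (L : Finset (Fin 2 → ℤ)) (d : (Fin 2 → ℤ) → ℂ) (U : ℝ), #L ≤ m →
        (∀ x, ‖F x - ∑ k ∈ L, d k * mFourier k x‖ ≤ U) →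
        c * (m : ℝ) ^ (-r) * (Real.log m) ^ (r + 1 / 2) ≤ U := by
  classical
  have hfac : (0 : ℝ) < mp.factorial := by exact_mod_cast Nat.factorial_pos mp
  obtain ⟨c₀, hc₀, K0, hK0⟩ := h
  obtain ⟨K1, hK1⟩ := exists_nat_ge c₀
  obtain ⟨m0, hm0⟩ := params' c₀ hc₀ (max K0 K1)
  refine ⟨(64 : ℝ) ^ (-r) * c₀ / (16 * mp.factorial * 4 ^ r) /
    ((c₀ / 16) ^ (-r) * 5 ^ (r + 1 / 2)), by positivity, ?_⟩
  filter_upwards [Filter.eventually_ge_atTop m0] with m hm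
  obtain ⟨K, hKK, hK2, h3, h4⟩ := hm0 m hm
  obtain ⟨F, P, hF, hP, hco, hnorm, hlow⟩ :=
    construct' c₀ K (fun B hB => by
      refine le_trans (Nat.mul_le_mul_left _ (Finset.card_le_card fun ε hε => ?_))
        (hK0 K ((le_max_left _ _).trans hKK))
      exact Finset.mem_filter.2 ⟨Finset.mem_univ _, hB ε hε⟩) r hr mp hmp
  have hcomp := compare' c₀ hc₀ r hr mp m K hK2
    (hK1.trans (by exact_mod_cast (le_max_right _ _).trans hKK)) h3 h4
  refine ⟨F, P, hF, hP, hco, hnorm, fun L d U hL hU => hcomp.trans (hlow L d U ?_ hU)⟩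
  exact le_trans (by exact_mod_cast hL) h3

end

end Pool.Agent.H96.CP
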